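import Pool.Agent.H82.G.R_seed8.H496R3.ZS.Weak

/-!
# Norm comparison: permutation representations with amenable stabilizers
-/

namespace Pool.Agent.H496R3.ZS

open scoped Pointwise symmDiff InnerProductSpace
open Filter Topology
open scoped Classical

noncomputable section

variable {G : Type} [Group G] {Z : Type} [MulAction G Z]

/-- the integrated form of the permutation representation -/
def integ (G Z : Type) [Group G] [MulAction G Z] :
    MonoidAlgebra ℂ G →ₐ[ℂ] (Ell Z →L[ℂ] Ell Z) :=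
  MonoidAlgebra.lift ℂ _ G (permRep G Z)

lemma integ_apply (x : MonoidAlgebra ℂ G) (v : Ell Z) :
    integ G Z x v = ∑ g ∈ x.coeff.support, x.coeff g • permRep G Z g v := by
  rw [integ, MonoidAlgebra.lift_apply, Finsupp.sum]
  simp only [sum_apply, smul_apply]

lemma integ_single (g : G) : integ G Z (MonoidAlgebra.single g 1) = permRep G Z g := by
  rw [integ, MonoidAlgebra.lift_single, one_smul]

lemma integ_finite {C : Subgroup G} (hC : IsAmenable C) (x : MonoidAlgebra ℂ G)
    (E : Finset (G ⧸ C)) (c : G ⧸ C → ℂ) :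
    ‖integ G (G ⧸ C) x (∑ q ∈ E, c q • dl q)‖ ≤
      ‖integ G G x‖ * ‖∑ q ∈ E, c q • (dl q : Ell (G ⧸ C))‖ := by
  set v : Ell (G ⧸ C) := ∑ q ∈ E, c q • dl q with hv
  set K : ℝ := ∑ g ∈ x.coeff.support, ∑ q ∈ E, ‖x.coeff g‖ * ‖c q‖ with hK
  have hK0 : 0 ≤ K := Finset.sum_nonneg fun g _ => Finset.sum_nonneg fun q _ => by positivity
  refine le_of_forall_pos_le_add fun ε hε => ?_
  obtain ⟨T, hT⟩ := exists_isometry hC x.coeff.support E (ε := ε / (K + 1)) (by positivity)
  have h1 : T (integ G (G ⧸ C) x v) - integ G G x (T v) =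
      ∑ g ∈ x.coeff.support, ∑ q ∈ E, (x.coeff g * c q) •
        (T (dl (g • q)) - permRep G G g (T (dl q))) := by
    rw [integ_apply, integ_apply, map_sum, ← Finset.sum_sub_distrib]
    refine Finset.sum_congr rfl fun g _ => ?_
    rw [map_smul, ← smul_sub, hv, map_sum, map_sum, map_sum, map_sum,
      ← Finset.sum_sub_distrib, Finset.smul_sum]
    refine Finset.sum_congr rfl fun q _ => ?_
    rw [map_smul, map_smul, map_smul, map_smul, permRep_dl, ← smul_sub, smul_smul]
  have h2 : ‖T (integ G (G ⧸ C) x v) - integ G G x (T v)‖ ≤ ε := by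
    rw [h1]
    refine (norm_sum_le _ _).trans ?_
    have h3 : ∀ g ∈ x.coeff.support, ‖∑ q ∈ E, (x.coeff g * c q) •
        (T (dl (g • q)) - permRep G G g (T (dl q)))‖ ≤
        ∑ q ∈ E, ‖x.coeff g‖ * ‖c q‖ * (ε / (K + 1)) := by
      intro g hg
      refine (norm_sum_le _ _).trans (Finset.sum_le_sum fun q hq => ?_)
      rw [norm_smul, norm_mul]
      exact mul_le_mul_of_nonneg_left (hT g hg q hq) (by positivity)
    refine (Finset.sum_le_sum h3).trans ?_
    have h4 : ∑ g ∈ x.coeff.support, ∑ q ∈ E, ‖x.coeff g‖ * ‖c q‖ * (ε / (K + 1)) =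
        K * (ε / (K + 1)) := by
      rw [hK, Finset.sum_mul]
      refine Finset.sum_congr rfl fun g _ => ?_
      rw [Finset.sum_mul]
    rw [h4, ← mul_div_assoc, div_le_iff₀ (by positivity)]
    nlinarith
  have h5 : ‖integ G (G ⧸ C) x v‖ = ‖T (integ G (G ⧸ C) x v)‖ := (T.norm_map _).symm
  rw [h5]
  calc ‖T (integ G (G ⧸ C) x v)‖ =
      ‖integ G G x (T v) + (T (integ G (G ⧸ C) x v) - integ G G x (T v))‖ := by
        congr 1; abel
    _ ≤ ‖integ G G x (T v)‖ + ‖T (integ G (G ⧸ C) x v) - integ G G x (T v)‖ := norm_add_le _ _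
    _ ≤ ‖integ G G x‖ * ‖v‖ + ε := by
        refine add_le_add ?_ h2
        refine (ContinuousLinearMap.le_opNorm _ _).trans ?_
        rw [T.norm_map]

/-- the same for vectors of a `G`-set supported in one orbit -/
lemma integ_orbit (z0 : Z) (hC : IsAmenable (MulAction.stabilizer G z0)) (x : MonoidAlgebra ℂ G)
    (E : Finset Z) (hE : ∀ z ∈ E, z ∈ MulAction.orbit G z0) (c : Z → ℂ) :
    ‖integ G Z x (∑ z ∈ E, c z • dl z)‖ ≤
      ‖integ G G x‖ * ‖∑ z ∈ E, c z • (dl z : Ell Z)‖ := by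
  set C := MulAction.stabilizer G z0 with hCdef
  set j : G ⧸ C → Z := MulAction.ofQuotientStabilizer G z0 with hj
  have hjinj : Function.Injective j := MulAction.injective_ofQuotientStabilizer G z0
  have hjg : ∀ (g : G) (q : G ⧸ C), j (g • q) = g • j q := fun g q =>
    MulAction.ofQuotientStabilizer_smul G z0 g q
  have horth : Orthonormal ℂ (fun q : G ⧸ C => (dl (j q) : Ell Z)) := orthonormal_dl.comp j hjinj
  set I := horth.orthogonalFamily.linearIsometry with hI
  have hIdl : ∀ q, I (dl q) = dl (j q) := fun q => isometry_dl horth q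
  -- the preimage
  set E' : Finset (G ⧸ C) := E.preimage j hjinj.injOn with hE'
  have himg : E'.image j = E := by
    rw [hE', Finset.image_preimage]
    refine Finset.filter_true_of_mem fun z hz => ?_
    obtain ⟨g, hg⟩ := hE z hz
    exact ⟨(QuotientGroup.mk g : G ⧸ C), hg⟩
  have hsum : ∀ f : Z → Ell Z, ∑ z ∈ E, f z = ∑ q ∈ E', f (j q) := by
    intro f
    rw [← himg, Finset.sum_image (fun a _ b _ h => hjinj h)]
  obtain ⟨u, hu⟩ : ∃ u : Ell (G ⧸ C), u = ∑ q ∈ E', c (j q) • dl q := ⟨_, rfl⟩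
  have h1 : (∑ z ∈ E, c z • (dl z : Ell Z)) = I u := by
    rw [hsum, hu, map_sum]
    refine Finset.sum_congr rfl fun q _ => ?_
    rw [map_smul, hIdl]
  have h2 : integ G Z x (I u) = I (integ G (G ⧸ C) x u) := by
    have h3 : ∀ g : G, permRep G Z g (I u) = I (permRep G (G ⧸ C) g u) := by
      intro g
      rw [hu, map_sum, map_sum, map_sum, map_sum]
      refine Finset.sum_congr rfl fun q _ => ?_
      rw [map_smul, map_smul, map_smul, map_smul, hIdl, permRep_dl, permRep_dl, hIdl, hjg]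
    rw [integ_apply, integ_apply, map_sum I]
    refine Finset.sum_congr rfl fun g _ => ?_
    rw [map_smul, h3]
  rw [h1, h2, I.norm_map, I.norm_map, hu]
  exact integ_finite hC x E' (fun q => c (j q))

/-- vectors supported in disjoint sets are orthogonal -/
lemma norm_sq_sum_of_disjoint {ι : Type} (s : Finset ι) (f : ι → Ell Z)
    (h : ∀ i ∈ s, ∀ j ∈ s, i ≠ j → ∀ z, f i z = 0 ∨ f j z = 0) :
    ‖∑ i ∈ s, f i‖ ^ 2 = ∑ i ∈ s, ‖f i‖ ^ 2 := by
  have h0 : ∀ i ∈ s, ∀ j ∈ s, i ≠ j → ⟪f i, f j⟫_ℂ = 0 := by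
    intro i hi j hj hij
    rw [lp.inner_eq_tsum]
    have : ∀ z, ⟪f i z, f j z⟫_ℂ = 0 := by
      intro z
      rcases h i hi j hj hij z with h' | h' <;> simp [h']
    simp only [this, tsum_zero]
  induction s using Finset.induction_on with
  | empty => simp
  | insert a s ha ih =>
    rw [Finset.sum_insert ha, Finset.sum_insert ha]
    rw [← ih (fun i hi j hj => h i (Finset.mem_insert_of_mem hi) j (Finset.mem_insert_of_mem hj))
      (fun i hi j hj => h0 i (Finset.mem_insert_of_mem hi) j (Finset.mem_insert_of_mem hj))]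
    have h1 : ⟪f a, ∑ i ∈ s, f i⟫_ℂ = 0 := by
      rw [inner_sum]
      refine Finset.sum_eq_zero fun i hi => ?_
      refine h0 a (Finset.mem_insert_self _ _) i (Finset.mem_insert_of_mem hi) ?_
      rintro rfl
      exact ha hi
    have h2 := norm_add_sq_eq_norm_sq_add_norm_sq_of_inner_eq_zero (𝕜 := ℂ) (f a)
      (∑ i ∈ s, f i) h1
    rw [pow_two, pow_two, pow_two]
    exact h2

/-- finitely supported vectors -/
lemma integ_finsum (hZ : ∀ z : Z, IsAmenable (MulAction.stabilizer G z))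
    (x : MonoidAlgebra ℂ G) (E : Finset Z) (c : Z → ℂ) :
    ‖integ G Z x (∑ z ∈ E, c z • dl z)‖ ≤
      ‖integ G G x‖ * ‖∑ z ∈ E, c z • (dl z : Ell Z)‖ := by
  -- group by orbits
  set o : Z → Quotient (MulAction.orbitRel G Z) := fun z => Quotient.mk _ z with ho
  set Ω : Finset (Quotient (MulAction.orbitRel G Z)) := E.image o with hΩ
  set f : Quotient (MulAction.orbitRel G Z) → Ell Z :=
    fun ω => ∑ z ∈ E.filter (fun z => o z = ω), c z • dl z with hf
  have hsum : (∑ z ∈ E, c z • (dl z : Ell Z)) = ∑ ω ∈ Ω, f ω := by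
    rw [hf, hΩ]
    exact (Finset.sum_fiberwise_of_maps_to (fun z hz => Finset.mem_image_of_mem o hz) _).symm
  have hog : ∀ (g : G) (z : Z), o (g • z) = o z := by
    intro g z
    exact Quotient.sound (MulAction.mem_orbit z g)
  have hsupp : ∀ ω z, o z ≠ ω → f ω z = 0 := by
    intro ω z hz
    simp only [hf]
    rw [lp.coeFn_sum, Finset.sum_apply]
    refine Finset.sum_eq_zero fun w hw => ?_
    rw [Finset.mem_filter] at hw
    rw [lp.coeFn_smul, Pi.smul_apply, dl_apply, if_neg, smul_zero]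
    rintro rfl
    exact hz hw.2
  have hsupp' : ∀ ω z, o z ≠ ω → integ G Z x (f ω) z = 0 := by
    intro ω z hz
    rw [integ_apply, lp.coeFn_sum, Finset.sum_apply]
    refine Finset.sum_eq_zero fun g _ => ?_
    rw [lp.coeFn_smul, Pi.smul_apply, permRep_apply, hsupp ω (g⁻¹ • z), smul_zero]
    rw [hog]
    exact hz
  have hdis : ∀ i ∈ Ω, ∀ j ∈ Ω, i ≠ j → ∀ z, f i z = 0 ∨ f j z = 0 := by
    intro i _ j _ hij z
    by_cases h : o z = i
    · right
      exact hsupp j z (fun h' => hij (h.symm.trans h'))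
    · left
      exact hsupp i z h
  have hdis' : ∀ i ∈ Ω, ∀ j ∈ Ω, i ≠ j → ∀ z, integ G Z x (f i) z = 0 ∨
      integ G Z x (f j) z = 0 := by
    intro i _ j _ hij z
    by_cases h : o z = i
    · right
      exact hsupp' j z (fun h' => hij (h.symm.trans h'))
    · left
      exact hsupp' i z h
  have hle : ∀ ω ∈ Ω, ‖integ G Z x (f ω)‖ ≤ ‖integ G G x‖ * ‖f ω‖ := by
    intro ω _
    obtain ⟨z0, rfl⟩ := Quotient.exists_rep ω
    refine integ_orbit z0 (hZ z0) x _ (fun z hz => ?_) c
    rw [Finset.mem_filter] at hz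
    exact Quotient.exact hz.2
  rw [hsum, map_sum]
  have hA := norm_sq_sum_of_disjoint Ω f hdis
  have hB := norm_sq_sum_of_disjoint Ω (fun ω => integ G Z x (f ω)) hdis'
  rw [← sq_le_sq₀ (norm_nonneg _) (by positivity), mul_pow, hB, hA, Finset.mul_sum]
  refine Finset.sum_le_sum fun ω hω => ?_
  rw [← mul_pow, sq_le_sq₀ (norm_nonneg _) (by positivity)]
  exact hle ω hω

/-- **weak containment**: the permutation representation on a `G`-set with amenable
stabilizers is weakly contained in the regular representation. -/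
lemma norm_integ_le (hZ : ∀ z : Z, IsAmenable (MulAction.stabilizer G z))
    (x : MonoidAlgebra ℂ G) : ‖integ G Z x‖ ≤ ‖integ G G x‖ := by
  refine ContinuousLinearMap.opNorm_le_bound _ (norm_nonneg _) fun v => ?_
  have h1 : HasSum (fun z : Z => v z • (dl z : Ell Z)) v := by
    have h := lp.hasSum_single (p := 2) (by norm_num) v
    have h5 : (fun z : Z => v z • (dl z : Ell Z)) = fun z => lp.single 2 z (v z) := by
      funext z
      rw [dl, ← lp.single_smul, smul_eq_mul, mul_one]
    rw [h5]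
    exact h
  have h2 : Tendsto (fun E : Finset Z => ∑ z ∈ E, v z • (dl z : Ell Z)) atTop (𝓝 v) := h1
  have h3 : Tendsto (fun E : Finset Z => ‖integ G Z x (∑ z ∈ E, v z • (dl z : Ell Z))‖) atTop
      (𝓝 ‖integ G Z x v‖) :=
    (((integ G Z x).continuous.tendsto v).comp h2).norm
  have h4 : Tendsto (fun E : Finset Z => ‖integ G G x‖ * ‖∑ z ∈ E, v z • (dl z : Ell Z)‖) atTop
      (𝓝 (‖integ G G x‖ * ‖v‖)) := h2.norm.const_mul _
  exact le_of_tendsto_of_tendsto' h3 h4 (fun E => integ_finsum hZ x E (fun z => v z))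

end

end Pool.Agent.H496R3.ZS
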