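import Pool.Agent.H82.G.R_seed8.H496R3.ZS.Defs

/-!
# The quasi-regular representation of an amenable subgroup is weakly contained in the regular one
-/

namespace Pool.Agent.H496R3.ZS

open scoped Pointwise symmDiff InnerProductSpace
open Filter Topology
open scoped Classical

noncomputable section

variable {Z : Type}

/-- basis vectors of `ℓ²(Z)` -/
def dl (z : Z) : Ell Z := lp.single 2 z (1 : ℂ)

lemma dl_apply (z w : Z) : (dl z : Z → ℂ) w = if w = z then 1 else 0 := by
  rw [dl]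
  rcases eq_or_ne w z with h | h
  · subst h
    simp
  · rw [lp.single_apply_ne _ _ _ h, if_neg h]

lemma inner_dl_left (z : Z) (f : Ell Z) : ⟪dl z, f⟫_ℂ = f z := by
  rw [dl]
  have h := lp.inner_single_left (𝕜 := ℂ) (G := fun _ : Z => ℂ) z (1 : ℂ) f
  rw [RCLike.inner_apply, map_one, mul_one] at h
  exact h

lemma orthonormal_dl : Orthonormal ℂ (dl : Z → Ell Z) := by
  rw [orthonormal_iff_ite]
  intro i j
  rw [inner_dl_left, dl_apply]

/-- the isometry attached to an orthonormal family -/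
lemma isometry_dl {E : Type} [NormedAddCommGroup E] [InnerProductSpace ℂ E] [CompleteSpace E]
    {v : Z → E} (hv : Orthonormal ℂ v) (z : Z) :
    hv.orthogonalFamily.linearIsometry (dl z) = v z := by
  have h := hv.orthogonalFamily.linearIsometry_apply_single (i := z) (1 : ℂ)
  rw [LinearIsometry.toSpanSingleton_apply, one_smul] at h
  exact h

variable {G : Type} [Group G]

lemma permRep_apply [MulAction G Z] (g : G) (f : Ell Z) (z : Z) :
    (permRep G Z g f : Z → ℂ) z = f (g⁻¹ • z) := rfl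

lemma permRep_dl [MulAction G Z] (g : G) (z : Z) : permRep G Z g (dl z) = dl (g • z) := by
  ext w
  rw [permRep_apply, dl_apply, dl_apply]
  simp only [inv_smul_eq_iff]

lemma norm_permRep_apply [MulAction G Z] (g : G) (f : Ell Z) : ‖permRep G Z g f‖ = ‖f‖ :=
  (permIso (MulAction.toPerm (g⁻¹ : G) : Z ≃ Z)).norm_map f

/-! ### Finite sums of basis vectors -/

/-- normalised sums -/
def xi {C : Subgroup G} (F : Finset C) (a : G) : Ell G :=
  (((F.card : ℝ).sqrt : ℂ))⁻¹ • ∑ c ∈ F, dl (a * (c : G))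

lemma orthonormal_mul (C : Subgroup G) (a : G) :
    Orthonormal ℂ (fun c : C => (dl (a * (c : G)) : Ell G)) :=
  orthonormal_dl.comp (fun c : C => a * (c : G)) (fun c d h => by
    apply Subtype.ext
    exact mul_left_cancel h)

/-- the inner product of two sums over subsets of cosets -/
lemma inner_sums {C : Subgroup G} (F F' : Finset C) (a b : G) :
    ⟪(∑ c ∈ F, dl (a * (c : G)) : Ell G), ∑ d ∈ F', dl (b * (d : G))⟫_ℂ =
      ∑ c ∈ F, ∑ d ∈ F', (if b * (d : G) = a * (c : G) then (1 : ℂ) else 0) := by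
  rw [sum_inner]
  refine Finset.sum_congr rfl fun c _ => ?_
  rw [inner_sum]
  refine Finset.sum_congr rfl fun d _ => ?_
  rw [inner_dl_left, dl_apply]
  by_cases h : b * (d : G) = a * (c : G)
  · rw [if_pos h, if_pos h.symm]
  · rw [if_neg h, if_neg (fun h' => h h'.symm)]

lemma orthonormal_xi {C : Subgroup G} {F : Finset C} (hF : F.Nonempty) (σ : G ⧸ C → G)
    (hσ : ∀ q, (QuotientGroup.mk (σ q) : G ⧸ C) = q) :
    Orthonormal ℂ (fun q : G ⧸ C => xi F (σ q)) := by
  rw [orthonormal_iff_ite]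
  intro q r
  have hcard : (0 : ℝ) < F.card := by exact_mod_cast hF.card_pos
  rw [xi, xi, inner_smul_left, inner_smul_right, inner_sums]
  rcases eq_or_ne q r with h | h
  · subst h
    have h1 : ∀ c ∈ F, (∑ d ∈ F, (if σ q * (d : G) = σ q * (c : G) then (1 : ℂ) else 0)) = 1 := by
      intro c hc
      simp only [mul_right_inj, Subtype.coe_inj]
      rw [Finset.sum_ite_eq' F c]
      simp [hc]
    rw [Finset.sum_congr rfl h1, if_pos rfl]
    simp only [Finset.sum_const, nsmul_eq_mul, mul_one]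
    rw [map_inv₀, Complex.conj_ofReal, ← mul_assoc, ← mul_inv, ← Complex.ofReal_mul,
      Real.mul_self_sqrt hcard.le]
    have : (F.card : ℂ) ≠ 0 := by exact_mod_cast hcard.ne'
    rw [Complex.ofReal_natCast]
    exact inv_mul_cancel₀ this
  · rw [if_neg h]
    have h1 : ∀ c ∈ F, (∑ d ∈ F, (if σ r * (d : G) = σ q * (c : G) then (1 : ℂ) else 0)) = 0 := by
      intro c _
      refine Finset.sum_eq_zero fun d _ => ?_
      rw [if_neg]
      intro h2
      apply h
      rw [← hσ q, ← hσ r, QuotientGroup.eq]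
      have h3 : (σ q)⁻¹ * σ r = (c : G) * (d : G)⁻¹ := by
        rw [inv_mul_eq_iff_eq_mul, ← mul_assoc, ← h2, mul_assoc, mul_inv_cancel, mul_one]
      rw [h3]
      exact C.mul_mem c.2 (C.inv_mem d.2)
    rw [Finset.sum_congr rfl h1]
    simp

/-- the difference of two sums -/
lemma norm_sum_sub_sum {C : Subgroup G} (P Q : Finset C) (a : G) :
    ‖(∑ c ∈ P, dl (a * (c : G)) : Ell G) - ∑ c ∈ Q, dl (a * (c : G))‖ ^ 2 =
      (((P : Set C) ∆ (Q : Set C)).ncard : ℝ) := by
  have h1 : (∑ c ∈ P, dl (a * (c : G)) : Ell G) - ∑ c ∈ Q, dl (a * (c : G)) =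
      ∑ c ∈ P ∪ Q, (((if c ∈ P then (1 : ℂ) else 0) - (if c ∈ Q then (1 : ℂ) else 0)) •
        dl (a * (c : G))) := by
    simp only [sub_smul, Finset.sum_sub_distrib, ite_smul, one_smul, zero_smul]
    congr 1
    · rw [← Finset.sum_filter]
      refine Finset.sum_congr ?_ (fun _ _ => rfl)
      ext c
      simp only [Finset.mem_filter, Finset.mem_union]
      tauto
    · rw [← Finset.sum_filter]
      refine Finset.sum_congr ?_ (fun _ _ => rfl)
      ext c
      simp only [Finset.mem_filter, Finset.mem_union]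
      tauto
  have h2 := (orthonormal_mul C a).inner_sum
    (fun c => (if c ∈ P then (1 : ℂ) else 0) - (if c ∈ Q then (1 : ℂ) else 0))
    (fun c => (if c ∈ P then (1 : ℂ) else 0) - (if c ∈ Q then (1 : ℂ) else 0)) (P ∪ Q)
  have h3 : (‖∑ c ∈ P ∪ Q, (((if c ∈ P then (1 : ℂ) else 0) -
      (if c ∈ Q then (1 : ℂ) else 0)) • dl (a * (c : G)) : Ell G)‖ ^ 2 : ℝ) =
      ((P ∆ Q).card : ℝ) := by
    have h4 : ((‖∑ c ∈ P ∪ Q, (((if c ∈ P then (1 : ℂ) else 0) -
      (if c ∈ Q then (1 : ℂ) else 0)) • dl (a * (c : G)) : Ell G)‖ ^ 2 : ℝ) : ℂ) =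
      ((P ∆ Q).card : ℂ) := by
      have hK : ∀ v : Ell G, ((‖v‖ ^ 2 : ℝ) : ℂ) = ⟪v, v⟫_ℂ := by
        intro v
        rw [inner_self_eq_norm_sq_to_K (𝕜 := ℂ) v]
        push_cast
        rfl
      rw [hK, h2]
      have h5 : ∀ c ∈ P ∪ Q, (starRingEnd ℂ) ((if c ∈ P then (1 : ℂ) else 0) -
          (if c ∈ Q then (1 : ℂ) else 0)) * ((if c ∈ P then (1 : ℂ) else 0) -
          (if c ∈ Q then (1 : ℂ) else 0)) = if c ∈ P ∆ Q then 1 else 0 := by
        intro c _
        simp only [Finset.mem_symmDiff]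
        by_cases hP : c ∈ P <;> by_cases hQ : c ∈ Q <;> simp [hP, hQ]
      rw [Finset.sum_congr rfl h5, Finset.sum_ite_mem]
      have h6 : (P ∪ Q) ∩ (P ∆ Q) = P ∆ Q := by
        ext c
        simp only [Finset.mem_inter, Finset.mem_union, Finset.mem_symmDiff]
        tauto
      rw [h6]
      simp
    exact_mod_cast h4
  rw [h1, h3]
  have h4 : ((P : Set C) ∆ (Q : Set C)) = ((P ∆ Q : Finset C) : Set C) := by
    rw [Finset.coe_symmDiff]
  rw [h4, Set.ncard_coe_finset]

/-- translation of `xi` by an element of the form `σ' κ` -/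
lemma permRep_xi {C : Subgroup G} (F : Finset C) (g a a' : G) (κ : C) (h : g * a = a' * (κ : G)) :
    permRep G G g (xi F a) = (((F.card : ℝ).sqrt : ℂ))⁻¹ • ∑ c ∈ F.image (fun c => κ * c),
      dl (a' * (c : G)) := by
  rw [xi, map_smul, map_sum]
  congr 1
  rw [Finset.sum_image (fun x _ y _ hxy => mul_left_cancel hxy)]
  refine Finset.sum_congr rfl fun c _ => ?_
  rw [permRep_dl, smul_eq_mul, ← mul_assoc, h, mul_assoc]
  rfl

/-- Almost intertwining isometries `ℓ²(G/C) → ℓ²(G)`, `C` amenable. -/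
lemma exists_isometry {C : Subgroup G} (hC : IsAmenable C) (S : Finset G) (E : Finset (G ⧸ C))
    {ε : ℝ} (hε : 0 < ε) :
    ∃ T : Ell (G ⧸ C) →ₗᵢ[ℂ] Ell G, ∀ g ∈ S, ∀ q ∈ E,
      ‖T (dl (g • q)) - permRep G G g (T (dl q))‖ ≤ ε := by
  set σ : G ⧸ C → G := Quotient.out with hσ
  have hσ' : ∀ q, (QuotientGroup.mk (σ q) : G ⧸ C) = q := fun q => Quotient.out_eq q
  -- the cocycle
  have hκ : ∀ (g : G) (q : G ⧸ C), ∃ κ : C, g * σ q = σ (g • q) * (κ : G) := by
    intro g q
    have h1 : (QuotientGroup.mk (σ (g • q)) : G ⧸ C) = QuotientGroup.mk (g * σ q) := by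
      rw [hσ']
      conv_lhs => rw [← hσ' q]
      rfl
    rw [QuotientGroup.eq] at h1
    exact ⟨⟨_, h1⟩, by simp⟩
  choose κ hκ using hκ
  obtain ⟨F, hF, hFS⟩ := hC ((S ×ˢ E).image (fun p => κ p.1 p.2)) (ε ^ 2) (by positivity)
  have hcard : (0 : ℝ) < F.card := by exact_mod_cast hF.card_pos
  have horth := orthonormal_xi hF σ hσ'
  refine ⟨horth.orthogonalFamily.linearIsometry, ?_⟩
  have hT : ∀ q, horth.orthogonalFamily.linearIsometry (dl q) = xi F (σ q) :=
    fun q => isometry_dl horth q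
  intro g hg q hq
  rw [hT, hT, permRep_xi F g (σ q) (σ (g • q)) (κ g q) (hκ g q), xi, ← smul_sub, norm_smul]
  have h1 : ‖(∑ c ∈ F, dl (σ (g • q) * (c : G)) : Ell G) -
      ∑ c ∈ F.image (fun c => κ g q * c), dl (σ (g • q) * (c : G))‖ ≤ ε * (F.card : ℝ).sqrt := by
    have h2 := norm_sum_sub_sum F (F.image (fun c => κ g q * c)) (σ (g • q))
    have h3 := hFS (κ g q) (Finset.mem_image.2 ⟨(g, q), Finset.mem_product.2 ⟨hg, hq⟩, rfl⟩)
    have h4 : ((F : Set C) ∆ ((F.image (fun c => κ g q * c) : Finset C) : Set C)) =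
        ((κ g q • (F : Set C)) ∆ (F : Set C)) := by
      rw [symmDiff_comm, Finset.coe_image]
      rfl
    rw [h4] at h2
    have h5 : ‖(∑ c ∈ F, dl (σ (g • q) * (c : G)) : Ell G) -
      ∑ c ∈ F.image (fun c => κ g q * c), dl (σ (g • q) * (c : G))‖ ^ 2 ≤
      (ε * (F.card : ℝ).sqrt) ^ 2 := by
      rw [h2, mul_pow, Real.sq_sqrt hcard.le]
      exact h3
    exact (sq_le_sq₀ (norm_nonneg _) (by positivity)).1 h5
  rw [norm_inv, Complex.norm_real, Real.norm_of_nonneg (Real.sqrt_nonneg _)]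
  rw [inv_mul_le_iff₀ (Real.sqrt_pos.2 hcard), mul_comm]
  exact h1

end

end Pool.Agent.H496R3.ZS
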